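import Mathlib

/-! Determinants of cyclic-interval matrices (MP_02f487_co): row operations. -/

open Finset

namespace Pool.Agent.X144.PD

/-- the cyclic half-open interval `]i,j]` -/
def oc {k : ℕ} (i j : Fin k) : Finset (Fin k) :=
  univ.filter fun m => m ≠ i ∧ (m - i).val ≤ (j - i).val

lemma val_sub {k : ℕ} (a b : Fin k) :
    (a - b).val = if b.val ≤ a.val then a.val - b.val else a.val + k - b.val := by
  have ha := a.isLt
  have hb := b.isLt
  rw [Fin.sub_def]
  simp only
  split_ifs with h
  · have : k - b.val + a.val = (a.val - b.val) + k := by omega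
    rw [this, Nat.add_mod_right, Nat.mod_eq_of_lt (by omega)]
  · rw [Nat.mod_eq_of_lt (by omega)]; omega

lemma mem_oc {k : ℕ} (i j m : Fin k) : m ∈ oc i j ↔
    ((i.val ≤ j.val ∧ i.val < m.val ∧ m.val ≤ j.val) ∨
      (j.val < i.val ∧ (i.val < m.val ∨ m.val ≤ j.val))) := by
  have hi := i.isLt
  have hj := j.isLt
  have hm := m.isLt
  simp only [oc, mem_filter, mem_univ, true_and, ne_eq, Fin.ext_iff]
  rw [val_sub, val_sub]
  split_ifs <;> omega

lemma prod_split {k : ℕ} {K : Type*} [CommRing K] (g : Fin k → K) (a b c : Fin k)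
    (h : b ∈ oc a c) : ∏ m ∈ oc a c, g m = (∏ m ∈ oc a b, g m) * ∏ m ∈ oc b c, g m := by
  rw [← prod_union]
  · congr 1
    ext m
    rw [mem_union, mem_oc, mem_oc, mem_oc]
    rw [mem_oc] at h
    omega
  · rw [Finset.disjoint_left]
    intro m
    rw [mem_oc, mem_oc]
    rw [mem_oc] at h
    omega

lemma prod_circle {k : ℕ} {K : Type*} [CommRing K] (g : Fin k → K) (a b : Fin k)
    (h : a ≠ b) : (∏ m ∈ oc a b, g m) * ∏ m ∈ oc b a, g m = ∏ m, g m := by
  have h' : a.val ≠ b.val := fun hh => h (Fin.ext hh)
  rw [← prod_union]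
  · congr 1
    ext m
    rw [mem_union, mem_oc, mem_oc]
    simp only [mem_univ, iff_true]
    omega
  · rw [Finset.disjoint_left]
    intro m
    rw [mem_oc, mem_oc]
    omega

section
variable {n r : ℕ} {K : Type*} [CommRing K]

/-- the matrix with rows `∏_{m ∈ ]b,j]} x_{m,f(b)}` and last row `1` -/
def Mx (f : Fin n → Fin r) (x : Fin (n + 1) × Fin r → K) :
    Matrix (Fin (n + 1)) (Fin (n + 1)) K :=
  fun i j => Fin.lastCases (motive := fun _ => K) 1
    (fun b => ∏ m ∈ oc b.castSucc j, x (m, f b)) i

@[simp] lemma Mx_last (f : Fin n → Fin r) (x : Fin (n + 1) × Fin r → K) (j : Fin (n + 1)) :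
    Mx f x (Fin.last n) j = 1 := by simp [Mx]

@[simp] lemma Mx_cast (f : Fin n → Fin r) (x : Fin (n + 1) × Fin r → K) (b : Fin n)
    (j : Fin (n + 1)) : Mx f x b.castSucc j = ∏ m ∈ oc b.castSucc j, x (m, f b) := by simp [Mx]

/-- the scaling factors -/
def vv (f : Fin n → Fin r) (x : Fin (n + 1) × Fin r → K) (m : Fin n) (i : Fin (n + 1)) : K :=
  Fin.lastCases (motive := fun _ => K) 1
    (fun b => if b ≠ m ∧ f b = f m then 1 - ∏ j, x (j, f m) else 1) i

/-- removing one own-coloured bit -/
theorem step (f : Fin n → Fin r) (x : Fin (n + 1) × Fin r → K) (m : Fin n) :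
    (∏ i, vv f x m i) * (Mx f (Function.update x (m.castSucc, f m) 0)).det = (Mx f x).det := by
  rw [← Matrix.det_mul_column]
  apply Matrix.det_eq_of_forall_row_eq_smul_add_const
    (fun i => Fin.lastCases (motive := fun _ => K) 0
      (fun b => if b ≠ m ∧ f b = f m then - ∏ q ∈ oc b.castSucc m.castSucc, x (q, f m) else 0) i)
    m.castSucc
  · simp
  · intro i j
    simp only [Matrix.of_apply]
    refine Fin.lastCases ?_ (fun b => ?_) i
    · simp [vv]
    · simp only [vv, Fin.lastCases_castSucc, Mx_cast]
      by_cases h : b ≠ m ∧ f b = f m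
      · rw [if_pos h, if_pos h]
        obtain ⟨h1, h2⟩ := h
        have h1' : b.castSucc ≠ m.castSucc := fun hh => h1 (Fin.castSucc_injective n hh)
        by_cases hm : m.castSucc ∈ oc b.castSucc j
        · rw [prod_eq_zero hm (by simp [h2])]
          rw [h2, prod_split (fun q => x (q, f m)) _ _ _ hm]
          ring
        · have e1 : ∏ q ∈ oc b.castSucc j, Function.update x (m.castSucc, f m) 0 (q, f b)
              = ∏ q ∈ oc b.castSucc j, x (q, f m) := by
            apply prod_congr rfl
            intro q hq
            rw [h2, Function.update_of_ne]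
            intro hh
            rw [Prod.mk.injEq] at hh
            exact hm (hh.1 ▸ hq)
          rw [e1, h2]
          by_cases hj : j = b.castSucc
          · subst hj
            have e2 := prod_circle (fun q => x (q, f m)) _ _ h1'
            have e3 : ∏ q ∈ oc b.castSucc b.castSucc, x (q, f m) = 1 := by
              have : oc b.castSucc b.castSucc = ∅ := by
                ext q; rw [mem_oc]; simp only [notMem_empty, iff_false]; omega
              rw [this, prod_empty]
            rw [e3]
            linear_combination e2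
          · have hj' : j.val ≠ b.castSucc.val := fun hh => hj (Fin.ext hh)
            have hj2 : j ∈ oc b.castSucc m.castSucc := by
              rw [mem_oc] at hm ⊢
              have : b.castSucc.val ≠ m.castSucc.val := fun hh => h1' (Fin.ext hh)
              omega
            have hj3 : j ≠ m.castSucc := by
              rintro rfl
              apply hm
              rw [mem_oc]
              have : b.castSucc.val ≠ m.castSucc.val := fun hh => h1' (Fin.ext hh)
              omega
            have e2 := prod_circle (fun q => x (q, f m)) _ _ hj3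
            have e3 := prod_split (fun q => x (q, f m)) _ _ _ hj2
            rw [e3]
            linear_combination (∏ q ∈ oc b.castSucc j, x (q, f m)) * e2
      · rw [if_neg h, if_neg h, one_mul, zero_mul, add_zero]
        apply prod_congr rfl
        intro q hq
        rw [Function.update_of_ne]
        intro hh
        rw [Prod.mk.injEq] at hh
        apply h
        refine ⟨?_, hh.2⟩
        rintro rfl
        rw [hh.1, mem_oc] at hq
        omega

/-- set the own-coloured bits of the sites in `A` to zero -/
def zer (f : Fin n → Fin r) (A : Finset (Fin n)) (x : Fin (n + 1) × Fin r → K) :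
    Fin (n + 1) × Fin r → K :=
  fun q => if ∃ b ∈ A, q = (b.castSucc, f b) then 0 else x q

lemma zer_insert (f : Fin n → Fin r) (A : Finset (Fin n)) (a : Fin n)
    (x : Fin (n + 1) × Fin r → K) :
    zer f (insert a A) x = Function.update (zer f A x) (a.castSucc, f a) 0 := by
  funext q
  unfold zer
  by_cases hq : q = (a.castSucc, f a)
  · subst hq
    rw [if_pos ⟨a, mem_insert_self _ _, rfl⟩, Function.update_self]
  · rw [Function.update_of_ne hq]
    by_cases h : ∃ b ∈ A, q = (b.castSucc, f b)
    · obtain ⟨b, hb, hqb⟩ := h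
      rw [if_pos ⟨b, mem_insert_of_mem hb, hqb⟩, if_pos ⟨b, hb, hqb⟩]
    · rw [if_neg h, if_neg]
      rintro ⟨b, hb, hqb⟩
      rcases mem_insert.1 hb with h1 | h1
      · exact hq (h1 ▸ hqb)
      · exact h ⟨b, h1, hqb⟩

lemma zer_empty (f : Fin n → Fin r) (x : Fin (n + 1) × Fin r → K) : zer f ∅ x = x := by
  funext q; simp [zer]

/-- the product of the scaling factors -/
lemma prod_vv (f : Fin n → Fin r) (x : Fin (n + 1) × Fin r → K) (m : Fin n) :
    ∏ i, vv f x m i = (1 - ∏ j, x (j, f m)) ^ ((univ.filter fun b => f b = f m).card - 1) := by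
  rw [Fin.prod_univ_castSucc]
  simp only [vv, Fin.lastCases_castSucc, Fin.lastCases_last, mul_one]
  rw [prod_ite, prod_const, prod_const_one, mul_one]
  congr 1
  have : (univ.filter fun b => b ≠ m ∧ f b = f m) = (univ.filter fun b => f b = f m).erase m := by
    ext b; simp
  rw [this, card_erase_of_mem (by simp)]

/-- bits in `{0,1}`: own-coloured bits do not matter -/
theorem det_zer_bits [NoZeroDivisors K] (f : Fin n → Fin r) (x : Fin (n + 1) × Fin r → K)
    (hx : ∀ q, x q = 0 ∨ x q = 1) (A : Finset (Fin n)) :
    (Mx f (zer f A x)).det = (Mx f x).det := by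
  have key : ∀ y : Fin (n + 1) × Fin r → K, (∀ q, y q = 0 ∨ y q = 1) → ∀ m : Fin n,
      (Mx f (Function.update y (m.castSucc, f m) 0)).det = (Mx f y).det := by
    intro y hy m
    by_cases hX : ∃ j, y (j, f m) = 0
    · obtain ⟨j, hj⟩ := hX
      have h0 : ∏ j, y (j, f m) = 0 := prod_eq_zero (mem_univ j) hj
      have h1 := step f y m
      rw [prod_vv, h0, sub_zero, one_pow, one_mul] at h1
      exact h1
    · have h1 : ∀ j, y (j, f m) = 1 := fun j => (hy _).resolve_left (fun h => hX ⟨j, h⟩)
      have hne : m.castSucc ≠ Fin.last n := Fin.castSucc_ne_last m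
      rw [Matrix.det_zero_of_row_eq hne, Matrix.det_zero_of_row_eq hne]
      · funext j
        rw [Mx_last, Mx_cast]
        exact prod_eq_one (fun q _ => h1 q)
      · funext j
        rw [Mx_last, Mx_cast]
        apply prod_eq_one
        intro q hq
        rw [Function.update_of_ne]
        · exact h1 q
        · intro hh
          rw [Prod.mk.injEq] at hh
          rw [hh.1, mem_oc] at hq
          omega
  induction A using Finset.induction_on with
  | empty => rw [zer_empty]
  | insert a A _ ih =>
    rw [zer_insert, key _ _ a, ih]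
    intro q
    unfold zer
    split_ifs
    · left; rfl
    · exact hx q

/-- uniform bits: the factors -/
theorem det_zer_unif (f : Fin n → Fin r) (u : Fin (n + 1) → K) (A : Finset (Fin n)) :
    (1 - ∏ j, u j) ^ (∑ t ∈ A.image f, ((univ.filter fun b => f b = t).card - 1)) *
      (Mx f (zer f A (fun q => u q.1))).det = (Mx f (fun q => u q.1)).det := by
  induction A using Finset.induction_on with
  | empty => rw [zer_empty]; simp
  | insert a A _ ih =>
    rw [zer_insert, image_insert]
    have h1 := step f (zer f A (fun q => u q.1)) a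
    rw [prod_vv] at h1
    by_cases ha : f a ∈ A.image f
    · rw [insert_eq_of_mem ha]
      have h0 : ∏ j, zer f A (fun q => u q.1) (j, f a) = 0 := by
        obtain ⟨b, hb, hba⟩ := mem_image.1 ha
        apply prod_eq_zero (mem_univ b.castSucc)
        unfold zer
        rw [if_pos ⟨b, hb, by rw [hba]⟩]
      rw [h0, sub_zero, one_pow, one_mul] at h1
      rw [h1, ih]
    · rw [sum_insert ha]
      have h0 : ∏ j, zer f A (fun q => u q.1) (j, f a) = ∏ j, u j := by
        apply prod_congr rfl
        intro j _
        unfold zer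
        rw [if_neg]
        rintro ⟨b, hb, hba⟩
        rw [Prod.mk.injEq] at hba
        exact ha (mem_image.2 ⟨b, hb, hba.2.symm⟩)
      rw [h0] at h1
      rw [← ih, ← h1, pow_add]
      ring

end

end Pool.Agent.X144.PD
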