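import Pool.Agent.X144.PD.Eval

/-! The count (MP_02f487_co). -/

open Finset

namespace Pool.Agent.X144.PD

variable {n r : ℕ}

/-- the determinant with own-coloured bits removed -/
def GG (f : Fin n → Fin r) (x : Fin (n + 1) × Fin r → ℚ) : ℚ := (Mx f (zer f univ x)).det

lemma zer_own (f : Fin n → Fin r) (x : Fin (n + 1) × Fin r → ℚ) (b : Fin n) (y : ℚ) :
    zer f univ (Function.update x (b.castSucc, f b) y) = zer f univ x := by
  funext q
  unfold zer
  by_cases h : ∃ b ∈ univ, q = (b.castSucc, f b)
  · rw [if_pos h, if_pos h]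
  · rw [if_neg h, if_neg h, Function.update_of_ne]
    intro hh; exact h ⟨b, mem_univ _, hh⟩

lemma GG_ind_own (f : Fin n → Fin r) (b : Fin n) : Ind (b.castSucc, f b) (GG f) := by
  intro x y
  unfold GG
  rw [zer_own]

lemma zer_nonown (f : Fin n → Fin r) (x : Fin (n + 1) × Fin r → ℚ) (q : Fin (n + 1) × Fin r)
    (hq : ∀ b : Fin n, q ≠ (b.castSucc, f b)) (y : ℚ) :
    zer f univ (Function.update x q y) = Function.update (zer f univ x) q y := by
  funext q'
  unfold zer
  by_cases h' : q' = q
  · subst h'
    rw [Function.update_self, Function.update_self, if_neg]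
    rintro ⟨b, _, hb⟩; exact hq b hb
  · rw [Function.update_of_ne h', Function.update_of_ne h']

lemma GG_aff_nonown (f : Fin n → Fin r) (q : Fin (n + 1) × Fin r)
    (hq : ∀ b : Fin n, q ≠ (b.castSucc, f b)) : Aff q (GG f) := by
  intro x y
  unfold GG
  rw [zer_nonown f x q hq, zer_nonown f x q hq, zer_nonown f x q hq]
  set z := zer f univ x with hz
  obtain ⟨m, t⟩ := q
  have hown : ∀ b' : Fin n, z (b'.castSucc, f b') = 0 := by
    intro b'; rw [hz]; unfold zer; rw [if_pos ⟨b', mem_univ _, rfl⟩]
  have hm : ∀ b' : Fin n, f b' = t → m ≠ b'.castSucc := by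
    intro b' hb' hmb
    exact hq b' (by rw [hmb, hb'])
  -- entries
  set E : Fin n → Fin (n + 1) → ℚ → ℚ := fun b j y =>
    ∏ m' ∈ oc b.castSucc j, Function.update z (m, t) y (m', f b) with hE
  have hEaff : ∀ b j y, E b j y = (1 - y) * E b j 0 + y * E b j 1 := by
    intro b j y
    have h1 : Aff (m, t) (fun w : Fin (n + 1) × Fin r → ℚ => ∏ m' ∈ oc b.castSucc j, w (m', f b)) := by
      apply Aff.prod _ _ m (Aff.coord' _ _)
      intro i _ hi
      apply Ind.coord
      intro hh
      rw [Prod.mk.injEq] at hh
      exact hi hh.1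
    exact h1 z y
  by_cases hgood : ∃ b0 : Fin n, f b0 = t ∧ ∀ b', f b' = t → b'.castSucc ∉ oc b0.castSucc m
  · obtain ⟨b0, hb0, hb0'⟩ := hgood
    have hconst : ∀ b, b ≠ b0 → ∀ j y y', E b j y = E b j y' := by
      intro b hb j y y'
      by_cases hbt : f b = t
      · -- b0 ∈ oc b m
        have hin : b0.castSucc ∈ oc b.castSucc m := by
          by_contra hcon
          have h2 := hb0' b hbt
          have h3 := hm b hbt
          have h4 := hm b0 hb0
          rw [mem_oc] at hcon h2
          have h3' : m.val ≠ b.val := fun hh => h3 (Fin.ext hh)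
          have h4' : m.val ≠ b0.val := fun hh => h4 (Fin.ext hh)
          have h5' : b.val ≠ b0.val := fun hh => hb (Fin.ext hh)
          simp only [Fin.val_castSucc] at hcon h2
          omega
        by_cases hmj : m ∈ oc b.castSucc j
        · have hin2 : b0.castSucc ∈ oc b.castSucc j := by
            rw [mem_oc] at hin hmj ⊢
            omega
          have hz0 : ∀ y, E b j y = 0 := by
            intro y
            rw [hE]
            apply prod_eq_zero hin2
            rw [Function.update_of_ne]
            · rw [hbt, ← hb0]; exact hown b0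
            · intro hh
              rw [Prod.mk.injEq] at hh
              exact hm b0 hb0 hh.1.symm
          rw [hz0, hz0]
        · rw [hE]
          apply prod_congr rfl
          intro m' hm'
          rw [Function.update_of_ne, Function.update_of_ne]
          · intro hh; rw [Prod.mk.injEq] at hh; exact hmj (hh.1 ▸ hm')
          · intro hh; rw [Prod.mk.injEq] at hh; exact hmj (hh.1 ▸ hm')
      · rw [hE]
        apply prod_congr rfl
        intro m' _
        rw [Function.update_of_ne, Function.update_of_ne]
        · intro hh; rw [Prod.mk.injEq] at hh; exact hbt hh.2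
        · intro hh; rw [Prod.mk.injEq] at hh; exact hbt hh.2
    have hrow : ∀ y, Mx f (Function.update z (m, t) y) = (Mx f (Function.update z (m, t) 0)).updateRow
        b0.castSucc (Mx f (Function.update z (m, t) y) b0.castSucc) := by
      intro y
      funext i j
      by_cases hi : i = b0.castSucc
      · subst hi; rw [Matrix.updateRow_self]
      · rw [Matrix.updateRow_ne hi]
        induction i using Fin.lastCases with
        | last => rw [Mx_last, Mx_last]
        | cast b =>
          rw [Mx_cast, Mx_cast]
          exact hconst b (fun hh => hi (by rw [hh])) j y 0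
    have hrow2 : Mx f (Function.update z (m, t) y) b0.castSucc
        = (1 - y) • Mx f (Function.update z (m, t) 0) b0.castSucc
          + y • Mx f (Function.update z (m, t) 1) b0.castSucc := by
      funext j
      simp only [Pi.add_apply, Pi.smul_apply, smul_eq_mul, Mx_cast]
      exact hEaff b0 j y
    rw [hrow y, hrow2, Matrix.det_updateRow_add, Matrix.det_updateRow_smul,
      Matrix.det_updateRow_smul, ← hrow 0, ← hrow 1]
  · have hconst : ∀ b, ∀ j y y', E b j y = E b j y' := by
      intro b j y y'
      by_cases hbt : f b = t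
      · have hex : ∃ b', f b' = t ∧ b'.castSucc ∈ oc b.castSucc m := by
          by_contra hcon
          push Not at hcon
          exact hgood ⟨b, hbt, hcon⟩
        obtain ⟨b0, hb0, hin⟩ := hex
        by_cases hmj : m ∈ oc b.castSucc j
        · have hin2 : b0.castSucc ∈ oc b.castSucc j := by
            rw [mem_oc] at hin hmj ⊢
            omega
          have hz0 : ∀ y, E b j y = 0 := by
            intro y
            rw [hE]
            apply prod_eq_zero hin2
            rw [Function.update_of_ne]
            · rw [hbt, ← hb0]; exact hown b0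
            · intro hh
              rw [Prod.mk.injEq] at hh
              exact hm b0 hb0 hh.1.symm
          rw [hz0, hz0]
        · rw [hE]
          apply prod_congr rfl
          intro m' hm'
          rw [Function.update_of_ne, Function.update_of_ne]
          · intro hh; rw [Prod.mk.injEq] at hh; exact hmj (hh.1 ▸ hm')
          · intro hh; rw [Prod.mk.injEq] at hh; exact hmj (hh.1 ▸ hm')
      · rw [hE]
        apply prod_congr rfl
        intro m' _
        rw [Function.update_of_ne, Function.update_of_ne]
        · intro hh; rw [Prod.mk.injEq] at hh; exact hbt hh.2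
        · intro hh; rw [Prod.mk.injEq] at hh; exact hbt hh.2
    have hM : ∀ y, Mx f (Function.update z (m, t) y) = Mx f (Function.update z (m, t) 0) := by
      intro y
      funext i j
      induction i using Fin.lastCases with
      | last => rw [Mx_last, Mx_last]
      | cast b => rw [Mx_cast, Mx_cast]; exact hconst b j y 0
    rw [hM y, hM 1]; ring

/-- left side function -/
def HΦ (f : Fin n → Fin r) (D : Finset (Fin n)) (x : Fin (n + 1) × Fin r → ℚ) : ℚ :=
  (∏ i ∈ D, x (i.castSucc, f i)) * GG f x

/-- right side function -/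
def HΨ (t0 : Fin r) (D : Finset (Fin n)) (x : Fin (n + 1) × Fin r → ℚ) : ℚ :=
  (∏ i ∈ D, x (i.castSucc, t0)) * (1 - x (Fin.last n, t0)) *
    ∏ t ∈ univ.erase t0, (1 - ∏ m, x (m, t))

lemma HΦ_aff (f : Fin n → Fin r) (D : Finset (Fin n)) (q : Fin (n + 1) × Fin r) :
    Aff q (HΦ f D) := by
  unfold HΦ
  by_cases hq : ∃ b : Fin n, q = (b.castSucc, f b)
  · obtain ⟨b, rfl⟩ := hq
    apply Aff.mul_ind _ (GG_ind_own f b)
    apply Aff.prod _ _ b (Aff.coord _)
    intro i _ hi
    apply Ind.coord
    intro hh
    rw [Prod.mk.injEq] at hh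
    exact hi (Fin.castSucc_injective n hh.1)
  · push Not at hq
    apply Ind.mul_aff _ (GG_aff_nonown f q hq)
    apply Ind.prod
    intro i _
    apply Ind.coord
    exact (hq i).symm

lemma HΨ_aff (t0 : Fin r) (D : Finset (Fin n)) (q : Fin (n + 1) × Fin r) :
    Aff q (HΨ t0 D) := by
  unfold HΨ
  obtain ⟨m, t⟩ := q
  by_cases ht : t = t0
  · subst ht
    apply Aff.mul_ind
    · by_cases hm : m = Fin.last n
      · subst hm
        apply Ind.mul_aff
        · apply Ind.prod
          intro i _
          apply Ind.coord
          intro hh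
          rw [Prod.mk.injEq] at hh
          exact Fin.castSucc_ne_last i hh.1
        · exact (Aff.coord _).one_sub
      · apply Aff.mul_ind
        · apply Aff.prod _ _ (m.castPred hm) (Aff.coord' _ _)
          intro i _ hi
          apply Ind.coord
          intro hh
          rw [Prod.mk.injEq] at hh
          apply hi
          apply Fin.castSucc_injective n
          rw [Fin.castSucc_castPred]
          exact hh.1
        · apply Ind.one_sub
          apply Ind.coord
          intro hh
          rw [Prod.mk.injEq] at hh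
          exact hm hh.1.symm
    · apply Ind.prod
      intro t' ht'
      apply Ind.one_sub
      apply Ind.prod
      intro i _
      apply Ind.coord
      intro hh
      rw [Prod.mk.injEq] at hh
      exact (ne_of_mem_erase ht') hh.2
  · apply Ind.mul_aff
    · apply Ind.mul
      · apply Ind.prod
        intro i _
        apply Ind.coord
        intro hh
        rw [Prod.mk.injEq] at hh
        exact ht hh.2.symm
      · apply Ind.one_sub
        apply Ind.coord
        intro hh
        rw [Prod.mk.injEq] at hh
        exact ht hh.2.symm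
    · apply Aff.prod _ _ t
      · apply Aff.one_sub
        apply Aff.prod _ _ m (Aff.coord' _ _)
        intro i _ hi
        apply Ind.coord
        intro hh
        rw [Prod.mk.injEq] at hh
        exact hi hh.1
      · intro t' _ ht'
        apply Ind.one_sub
        apply Ind.prod
        intro i _
        apply Ind.coord
        intro hh
        rw [Prod.mk.injEq] at hh
        exact ht' hh.2

/-- the two functions agree at uniform bits -/
lemma agree (hn : 1 ≤ n) (f : Fin n → Fin r) (hf : Function.Surjective f) (t0 : Fin r)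
    (D : Finset (Fin n)) (u : Fin (n + 1) → ℚ) (hu : 1 - ∏ j, u j ≠ 0) :
    HΦ f D (fun q => u q.1) = HΨ t0 D (fun q => u q.1) := by
  unfold HΦ HΨ GG
  rw [value hn f hf u hu]
  simp only
  rw [prod_const, card_erase_of_mem (mem_univ _), card_univ, Fintype.card_fin]
  ring

/-- the bit vector of a set of bits -/
def ind (T : Finset (Fin (n + 1) × Fin r)) : Fin (n + 1) × Fin r → ℚ :=
  fun b => if b ∈ T then 1 else 0

/-- multiplicities -/
def mult (T : Finset (Fin (n + 1) × Fin r)) (m : Fin (n + 1)) : ℕ := (T.filter fun q => q.1 = m).card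

theorem weighted (hn : 1 ≤ n) (f : Fin n → Fin r) (hf : Function.Surjective f) (t0 : Fin r)
    (D : Finset (Fin n)) (x : Fin (n + 1) → ℚ) (hx : ∀ m, 0 < x m) :
    ∑ T : Finset (Fin (n + 1) × Fin r), (∏ m, x m ^ mult T m) * (HΦ f D (ind T) - HΨ t0 D (ind T))
      = 0 := by
  set u : Fin (n + 1) → ℚ := fun m => x m / (1 + x m) with hu
  have hpos : ∀ m, 0 < 1 + x m := fun m => by have := hx m; linarith
  have hu0 : ∀ m, 0 ≤ u m := fun m => div_nonneg (hx m).le (hpos m).le
  have hu1 : ∀ m, u m < 1 := fun m => by
    rw [hu]; simp only; rw [div_lt_one (hpos m)]; linarith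
  have hU : 1 - ∏ j, u j ≠ 0 := by
    have h1 : ∏ j, u j < 1 := by
      rw [Fin.prod_univ_succ]
      have h2 : ∏ i : Fin n, u i.succ ≤ 1 :=
        prod_le_one (fun i _ => hu0 _) (fun i _ => (hu1 _).le)
      have h3 : 0 ≤ ∏ i : Fin n, u i.succ := prod_nonneg (fun i _ => hu0 _)
      have h4 := hu1 0
      have h5 := hu0 0
      nlinarith
    linarith
  have hw : ∀ T : Finset (Fin (n + 1) × Fin r), (∏ b : Fin (n + 1) × Fin r, (1 + x b.1)) *
      (∏ b : Fin (n + 1) × Fin r, if b ∈ T then u b.1 else 1 - u b.1) = ∏ m, x m ^ mult T m := by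
    intro T
    rw [← prod_mul_distrib]
    have h1 : ∀ b : Fin (n + 1) × Fin r, (1 + x b.1) * (if b ∈ T then u b.1 else 1 - u b.1)
        = if b ∈ T then x b.1 else 1 := by
      intro b
      have h2 := (hpos b.1).ne'
      split_ifs
      · rw [hu]; field_simp
      · rw [hu]; field_simp; ring
    rw [prod_congr rfl (fun b _ => h1 b), prod_ite_mem, univ_inter,
      ← prod_fiberwise T (fun q => q.1) (fun q => x q.1)]
    apply prod_congr rfl
    intro m _
    rw [prod_congr rfl (g := fun _ => x m)]
    · rw [prod_const]; rfl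
    · intro q hq; rw [(mem_filter.1 hq).2]
  have h1 := expect (HΦ f D) (HΦ_aff f D) (fun q => u q.1)
  have h2 := expect (HΨ t0 D) (HΨ_aff t0 D) (fun q => u q.1)
  have h3 := agree hn f hf t0 D u hU
  have h4 : ∑ T : Finset (Fin (n + 1) × Fin r), (∏ m, x m ^ mult T m) *
      (HΦ f D (ind T) - HΨ t0 D (ind T))
      = (∏ b : Fin (n + 1) × Fin r, (1 + x b.1)) *
        (HΦ f D (fun q => u q.1) - HΨ t0 D (fun q => u q.1)) := by
    rw [h1, h2, ← sum_sub_distrib, mul_sum]
    apply sum_congr rfl
    intro T _
    rw [← hw T]
    unfold ind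
    ring
  rw [h4, h3, sub_self, mul_zero]

/-- comparison of coefficients -/
theorem count (hn : 1 ≤ n) (f : Fin n → Fin r) (hf : Function.Surjective f) (t0 : Fin r)
    (D : Finset (Fin n)) (p : Fin (n + 1) → ℕ) :
    ∑ T ∈ univ.filter (fun T : Finset (Fin (n + 1) × Fin r) => mult T = p), HΦ f D (ind T)
      = ∑ T ∈ univ.filter (fun T : Finset (Fin (n + 1) × Fin r) => mult T = p), HΨ t0 D (ind T) := by
  set P : MvPolynomial (Fin (n + 1)) ℚ := ∑ T : Finset (Fin (n + 1) × Fin r),
    MvPolynomial.monomial (Finsupp.equivFunOnFinite.symm (mult T))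
      (HΦ f D (ind T) - HΨ t0 D (ind T)) with hP
  have hP0 : P = 0 := by
    apply MvPolynomial.funext_set (fun _ => Set.Ioi (0 : ℚ)) (fun _ => Set.Ioi_infinite 0)
    intro x hx
    have hx' : ∀ m, 0 < x m := fun m => hx m (Set.mem_univ m)
    rw [hP, map_sum, map_zero, ← weighted hn f hf t0 D x hx']
    apply sum_congr rfl
    intro T _
    rw [MvPolynomial.eval_monomial, Finsupp.prod_fintype _ _ (fun i => pow_zero _), mul_comm]
    rfl
  have h1 : P.coeff (Finsupp.equivFunOnFinite.symm p) = 0 := by rw [hP0]; simp
  rw [hP, MvPolynomial.coeff_sum] at h1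
  simp only [MvPolynomial.coeff_monomial] at h1
  rw [← sum_filter] at h1
  have h2 : (univ.filter fun T : Finset (Fin (n + 1) × Fin r) =>
      Finsupp.equivFunOnFinite.symm (mult T) = Finsupp.equivFunOnFinite.symm p)
      = univ.filter (fun T : Finset (Fin (n + 1) × Fin r) => mult T = p) := by
    ext T
    simp only [mem_filter, mem_univ, true_and]
    exact (Finsupp.equivFunOnFinite.symm.injective.eq_iff)
  rw [h2, sum_sub_distrib] at h1
  linarith

end Pool.Agent.X144.PD
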