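import Pool.Agent.X144.PD.Core

/-! Evaluation at uniform bits, multi-affinity (MP_02f487_co). -/

open Finset

namespace Pool.Agent.X144.PD

section
variable {n r : ℕ} {K : Type*} [CommRing K]

lemma zer_one (n : ℕ) (u : Fin (n + 1) → K) (m : Fin (n + 1)) :
    zer (fun _ : Fin n => (0 : Fin 1)) univ (fun q => u q.1) (m, 0)
      = if m = Fin.last n then u (Fin.last n) else 0 := by
  unfold zer
  by_cases hm : m = Fin.last n
  · subst hm
    rw [if_pos rfl, if_neg]
    rintro ⟨b, _, hb⟩
    rw [Prod.mk.injEq] at hb
    exact (Fin.castSucc_ne_last b) hb.1.symm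
  · rw [if_neg hm, if_pos]
    exact ⟨m.castPred hm, mem_univ _, by simp⟩

/-- the case of one colour -/
theorem base (n : ℕ) (hn : 1 ≤ n) (u : Fin (n + 1) → K) :
    (Mx (fun _ : Fin n => (0 : Fin 1)) (zer (fun _ => 0) univ (fun q => u q.1))).det
      = 1 - u (Fin.last n) := by
  set A := Mx (fun _ : Fin n => (0 : Fin 1)) (zer (fun _ => 0) univ (fun q => u q.1)) with hA
  have hzero : ∀ (b : Fin n) (j q : Fin (n + 1)), q ∈ oc b.castSucc j → q.val ≠ n →
      A b.castSucc j = 0 := by
    intro b j q hq hqn
    rw [hA, Mx_cast]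
    apply prod_eq_zero hq
    rw [zer_one, if_neg]
    intro hh
    rw [hh] at hqn
    exact hqn rfl
  have hdiag : ∀ b : Fin n, A b.castSucc b.castSucc = 1 := by
    intro b
    rw [hA, Mx_cast]
    have : oc b.castSucc b.castSucc = ∅ := by
      ext q; rw [mem_oc]; simp only [notMem_empty, iff_false]; omega
    rw [this, prod_empty]
  have hlow : ∀ (b : Fin n) (j : Fin (n + 1)), j.val < b.val → A b.castSucc j = 0 := by
    intro b j hj
    apply hzero b j ⟨0, by omega⟩
    · rw [mem_oc]; simp only [Fin.val_castSucc]; omega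
    · simp only; omega
  have hup : ∀ (b : Fin n) (j : Fin (n + 1)), b.val < j.val → j.val ≠ n → A b.castSucc j = 0 := by
    intro b j hj hjn
    apply hzero b j j _ hjn
    rw [mem_oc]; simp only [Fin.val_castSucc]; omega
  have hlast1 : ∀ b : Fin n, b.val + 1 ≠ n → A b.castSucc (Fin.last n) = 0 := by
    intro b hb
    have hbn := b.isLt
    apply hzero b (Fin.last n) ⟨b.val + 1, by omega⟩
    · rw [mem_oc]; simp only [Fin.val_castSucc, Fin.val_last]; omega
    · simp only; omega
  have hlast2 : ∀ b : Fin n, b.val + 1 = n → A b.castSucc (Fin.last n) = u (Fin.last n) := by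
    intro b hb
    rw [hA, Mx_cast]
    have : oc b.castSucc (Fin.last n) = {Fin.last n} := by
      ext q
      have hq := q.isLt
      rw [mem_oc, mem_singleton, Fin.ext_iff]
      simp only [Fin.val_castSucc, Fin.val_last]
      omega
    rw [this, prod_singleton, zer_one, if_pos rfl]
  set c : Fin (n + 1) → K := fun i => Fin.lastCases (motive := fun _ => K) 1 (fun _ => -1) i with hc
  have hc1 : c (Fin.last n) = 1 := by simp [hc]
  have hc2 : ∀ b : Fin n, c b.castSucc = -1 := by intro b; simp [hc]
  have h1 := Matrix.det_updateRow_sum A (Fin.last n) c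
  rw [hc1, one_smul] at h1
  rw [← h1]
  have hrow : ∀ j, (∑ k, c k • A k) j = 1 - ∑ b : Fin n, A b.castSucc j := by
    intro j
    rw [Finset.sum_apply, Fin.sum_univ_castSucc]
    simp only [Pi.smul_apply, smul_eq_mul, hc1, hc2]
    have : A (Fin.last n) j = 1 := by rw [hA, Mx_last]
    rw [this, ← mul_sum]; ring
  rw [Matrix.det_of_isUpperTriangular]
  · rw [Fin.prod_univ_castSucc]
    have e1 : ∏ i : Fin n, (A.updateRow (Fin.last n) (∑ k, c k • A k)) i.castSucc i.castSucc = 1 := by
      apply prod_eq_one
      intro b _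
      rw [Matrix.updateRow_ne (Fin.castSucc_ne_last b)]
      exact hdiag b
    rw [e1, one_mul, Matrix.updateRow_self, hrow]
    congr 1
    rw [sum_eq_single (⟨n - 1, by omega⟩ : Fin n)]
    · exact hlast2 _ (by simp only; omega)
    · intro b _ hb
      apply hlast1
      intro hh
      apply hb
      ext; simp only; omega
    · intro h; exact absurd (mem_univ _) h
  · intro i j hij
    simp only [id] at hij
    induction i using Fin.lastCases with
    | last =>
      rw [Matrix.updateRow_self, hrow]
      have hj : j.val < n := by simpa [Fin.lt_def] using hij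
      rw [sum_eq_single (⟨j.val, hj⟩ : Fin n)]
      · have : (⟨j.val, hj⟩ : Fin n).castSucc = j := by ext; rfl
        have h2 := hdiag ⟨j.val, hj⟩
        rw [this] at h2 ⊢
        rw [h2, sub_self]
      · intro b _ hb
        have hbj : b.val ≠ j.val := fun hh => hb (by ext; exact hh)
        rcases Nat.lt_or_gt_of_ne hbj with h | h
        · exact hup b j h (by omega)
        · exact hlow b j h
      · intro h; exact absurd (mem_univ _) h
    | cast b =>
      rw [Matrix.updateRow_ne (Fin.castSucc_ne_last b)]
      apply hlow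
      simpa [Fin.lt_def] using hij

/-- the value at uniform bits -/
theorem value [IsDomain K] (hn : 1 ≤ n) (f : Fin n → Fin r) (hf : Function.Surjective f)
    (u : Fin (n + 1) → K) (hu : 1 - ∏ j, u j ≠ 0) :
    (Mx f (zer f univ (fun q => u q.1))).det
      = (1 - ∏ j, u j) ^ (r - 1) * (1 - u (Fin.last n)) := by
  have h1 := det_zer_unif f u univ
  have h2 := det_zer_unif (fun _ : Fin n => (0 : Fin 1)) u univ
  rw [base n hn u] at h2
  have h3 : Mx f (fun q => u q.1) = Mx (fun _ : Fin n => (0 : Fin 1)) (fun q => u q.1) := by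
    funext i j
    induction i using Fin.lastCases with
    | last => simp
    | cast b => simp
  rw [h3, ← h2] at h1
  have hr : 1 ≤ r := by
    have := (f ⟨0, by omega⟩).isLt
    omega
  have e1 : (∑ t ∈ univ.image f, ((univ.filter fun b => f b = t).card - 1)) + r = n := by
    rw [image_univ_of_surjective hf]
    have h4 : ∑ t : Fin r, (univ.filter fun b => f b = t).card = n := by
      rw [← card_eq_sum_card_fiberwise (s := univ) (t := univ) (f := f) (by intro x _; simp)]
      simp
    have h5 : ∑ t : Fin r, ((univ.filter fun b => f b = t).card - 1) + ∑ t : Fin r, 1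
        = ∑ t : Fin r, (univ.filter fun b => f b = t).card := by
      rw [← sum_add_distrib]
      apply sum_congr rfl
      intro t _
      obtain ⟨b, hb⟩ := hf t
      have : 0 < (univ.filter fun b => f b = t).card := card_pos.2 ⟨b, by simp [hb]⟩
      omega
    rw [sum_const, card_univ, Fintype.card_fin, smul_eq_mul, mul_one, h4] at h5
    exact h5
  have e2 : (∑ t ∈ univ.image (fun _ : Fin n => (0 : Fin 1)),
      ((univ.filter fun _ : Fin n => (0 : Fin 1) = t).card - 1)) = n - 1 := by
    have : univ.image (fun _ : Fin n => (0 : Fin 1)) = {0} := by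
      ext t
      simp only [mem_image, mem_univ, true_and, mem_singleton]
      constructor
      · intro _; exact Subsingleton.elim _ _
      · rintro rfl; exact ⟨⟨0, by omega⟩, rfl⟩
    rw [this, sum_singleton]
    simp
  rw [e2] at h1
  set e := ∑ t ∈ univ.image f, ((univ.filter fun b => f b = t).card - 1) with he
  have e3 : n - 1 = e + (r - 1) := by omega
  rw [e3, pow_add, mul_assoc] at h1
  exact mul_left_cancel₀ (pow_ne_zero _ hu) h1

end

section aff
variable {β : Type*} [DecidableEq β]

/-- independence of a coordinate -/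
def Ind (q : β) (H : (β → ℚ) → ℚ) : Prop := ∀ x y, H (Function.update x q y) = H x

/-- affine in a coordinate -/
def Aff (q : β) (H : (β → ℚ) → ℚ) : Prop := ∀ x y, H (Function.update x q y)
  = (1 - y) * H (Function.update x q 0) + y * H (Function.update x q 1)

lemma Ind.aff {q : β} {H : (β → ℚ) → ℚ} (h : Ind q H) : Aff q H := by
  intro x y; rw [h, h, h]; ring

lemma Ind.mul_aff {q : β} {H G : (β → ℚ) → ℚ} (h : Ind q H) (g : Aff q G) :
    Aff q (fun x => H x * G x) := by
  intro x y; simp only; rw [h, h, h, g x y]; ring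

lemma Aff.mul_ind {q : β} {H G : (β → ℚ) → ℚ} (h : Aff q H) (g : Ind q G) :
    Aff q (fun x => H x * G x) := by
  intro x y; simp only; rw [g, g, g, h x y]; ring

lemma Ind.mul {q : β} {H G : (β → ℚ) → ℚ} (h : Ind q H) (g : Ind q G) :
    Ind q (fun x => H x * G x) := by
  intro x y; simp only; rw [g, h]

lemma Aff.one_sub {q : β} {H : (β → ℚ) → ℚ} (h : Aff q H) : Aff q (fun x => 1 - H x) := by
  intro x y; simp only; rw [h x y]; ring

lemma Ind.one_sub {q : β} {H : (β → ℚ) → ℚ} (h : Ind q H) : Ind q (fun x => 1 - H x) := by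
  intro x y; simp only; rw [h x y]

lemma Ind.prod {ι : Type*} {q : β} (s : Finset ι) (g : ι → (β → ℚ) → ℚ)
    (h : ∀ i ∈ s, Ind q (g i)) : Ind q (fun x => ∏ i ∈ s, g i x) := by
  intro x y
  apply prod_congr rfl
  intro i hi
  exact h i hi x y

lemma Aff.prod {ι : Type*} [DecidableEq ι] {q : β} (s : Finset ι) (g : ι → (β → ℚ) → ℚ) (i0 : ι)
    (h0 : Aff q (g i0)) (h : ∀ i ∈ s, i ≠ i0 → Ind q (g i)) : Aff q (fun x => ∏ i ∈ s, g i x) := by
  by_cases hi : i0 ∈ s
  · have : (fun x => ∏ i ∈ s, g i x) = fun x => g i0 x * ∏ i ∈ s.erase i0, g i x := by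
      funext x; rw [mul_prod_erase s (fun i => g i x) hi]
    rw [this]
    apply Aff.mul_ind h0
    apply Ind.prod
    intro i hi'
    exact h i (mem_of_mem_erase hi') (ne_of_mem_erase hi')
  · apply Ind.aff
    apply Ind.prod
    intro i hi'
    exact h i hi' (fun hh => hi (hh ▸ hi'))

lemma Aff.coord (q : β) : Aff q (fun x => x q) := by
  intro x y; simp

lemma Ind.coord {q q' : β} (h : q' ≠ q) : Ind q (fun x => x q') := by
  intro x y; exact Function.update_of_ne h _ _

lemma Aff.coord' (q q' : β) : Aff q (fun x => x q') := by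
  by_cases h : q' = q
  · subst h; exact Aff.coord _
  · exact (Ind.coord h).aff

/-- expectation of a multi-affine function -/
theorem expect [Fintype β] (H : (β → ℚ) → ℚ) (hH : ∀ q, Aff q H) (u : β → ℚ) :
    H u = ∑ T : Finset β, (∏ b, if b ∈ T then u b else 1 - u b) *
      H (fun b => if b ∈ T then 1 else 0) := by
  have key : ∀ A : Finset β, H u = ∑ T ∈ A.powerset, (∏ b ∈ A, if b ∈ T then u b else 1 - u b) *
      H (fun b => if b ∈ A then (if b ∈ T then 1 else 0) else u b) := by
    intro A
    induction A using Finset.induction_on with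
    | empty => simp
    | insert a A ha ih =>
      rw [sum_powerset_insert ha, ih, ← sum_add_distrib]
      apply sum_congr rfl
      intro T hT
      have haT : a ∉ T := fun h => ha (mem_powerset.1 hT h)
      have e1 : (fun b => if b ∈ A then (if b ∈ T then (1 : ℚ) else 0) else u b)
          = Function.update (fun b => if b ∈ A then (if b ∈ T then (1 : ℚ) else 0) else u b) a (u a) := by
        symm
        rw [Function.update_eq_self_iff, if_neg ha]
      have e2 : (fun b => if b ∈ insert a A then (if b ∈ T then (1 : ℚ) else 0) else u b)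
          = Function.update (fun b => if b ∈ A then (if b ∈ T then (1 : ℚ) else 0) else u b) a 0 := by
        funext b
        by_cases hb : b = a
        · subst hb; simp [haT]
        · simp [hb]
      have e3 : (fun b => if b ∈ insert a A then (if b ∈ insert a T then (1 : ℚ) else 0) else u b)
          = Function.update (fun b => if b ∈ A then (if b ∈ T then (1 : ℚ) else 0) else u b) a 1 := by
        funext b
        by_cases hb : b = a
        · subst hb; simp
        · simp [hb]
      have e4 : ∏ b ∈ A, (if b ∈ insert a T then u b else 1 - u b)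
          = ∏ b ∈ A, (if b ∈ T then u b else 1 - u b) := by
        apply prod_congr rfl
        intro b hb
        have hba : b ≠ a := fun h => ha (h ▸ hb)
        simp [hba]
      rw [prod_insert ha, prod_insert ha, if_neg haT, if_pos (mem_insert_self _ _), e2, e3, e4]
      conv_lhs => rw [e1, hH a]
      ring
  have h := key univ
  rw [h, powerset_univ]
  apply sum_congr rfl
  intro T _
  simp only [mem_univ, if_true]

end aff

end Pool.Agent.X144.PD
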